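import Pool.Agent.MP_f6b137_pr.H74.Base

/-! The coupling in mean square. -/

namespace Pool.Agent.MP_f6b137_pr.H50

open MeasureTheory Filter Topology Polynomial Pool.Agent.MP_f6b137_pr.H74
open scoped Real RealInnerProductSpace

theorem emb {V : Type} [NormedAddCommGroup V] [InnerProductSpace ℝ V] (s : Set V) (hs : s.Finite) :
    ∃ (D : ℕ) (T : V → ES D), ∀ v ∈ s, ∀ w ∈ s, ⟪T v, T w⟫ = ⟪v, w⟫ := by
  classical
  have := FiniteDimensional.span_of_finite ℝ hs
  refine ⟨_, fun v => if h : v ∈ Submodule.span ℝ s then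
    (stdOrthonormalBasis ℝ (Submodule.span ℝ s)).repr ⟨v, h⟩ else 0, fun v hv w hw => ?_⟩
  have hv' : v ∈ Submodule.span ℝ s := Submodule.subset_span hv
  have hw' : w ∈ Submodule.span ℝ s := Submodule.subset_span hw
  beta_reduce
  rw [dif_pos hv', dif_pos hw', LinearIsometryEquiv.inner_map_map]
  rfl

theorem ip {ν : Measure ℝ} {f g : ℝ → ℝ} (hf : MemLp f 2 ν) (hg : MemLp g 2 ν) :
    ⟪hf.toLp f, hg.toLp g⟫ = ∫ θ, f θ * g θ ∂ν := by
  rw [L2.inner_def]
  refine integral_congr_ae ?_
  filter_upwards [hf.coeFn_toLp, hg.coeFn_toLp] with θ h1 h2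
  rw [h1, h2]
  simp [mul_comm]

theorem imul {ν : Measure ℝ} {w : ℝ → ℝ} (hw : Integrable w ν) (g : ℝ[X]) :
    Integrable (fun θ => w θ * g.eval (Real.cos θ)) ν := by
  obtain ⟨M, hM⟩ := isCompact_Icc.exists_bound_of_continuousOn
    (g.continuous.continuousOn (s := Set.Icc (-1 : ℝ) 1))
  exact hw.mul_bdd (g.continuous.comp Real.continuous_cos).aestronglyMeasurable
    (Eventually.of_forall fun θ => hM _ ⟨Real.neg_one_le_cos θ, Real.cos_le_one θ⟩)

theorem rowCOUP0 : RowCOUP0 := by
  intro μ p ell ρ q n N hμ hsupp hp hell hρm hρ2 hden hN hdeg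
  set ν : Measure ℝ := volume.restrict (Set.Icc 0 π) with hν
  have : IsFiniteMeasure ν := isFiniteMeasure_restrict.2 isCompact_Icc.measure_lt_top.ne
  have hρ2 : Integrable (fun θ => ρ θ ^ 2) ν := hρ2
  have h1 : ∀ g : ℝ → ℝ, ∫ θ, g θ ∂μ = ∫ θ, ρ θ ^ 2 * g θ ∂ν := fun g => by
    rw [← hden g _ measurableSet_Icc subset_rfl,
      Measure.restrict_eq_self_of_ae_mem (s := Set.Icc 0 π) (mem_ae_iff.2 hsupp)]
  have hρ1 : Integrable ρ ν :=
    ((memLp_two_iff_integrable_sq hρm.aestronglyMeasurable).2 hρ2).integrable one_le_two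
  have hN0 : (0 : ℝ) < N := by exact_mod_cast hN
  set a := √(N / π) with ha
  have ha2 : a * a = N / π := Real.mul_self_sqrt (by positivity)
  set l : ℕ → ℝ[X] := fun i => C a * ell N i with hl
  have hc : ∀ g : ℝ[X], Continuous fun θ => g.eval (Real.cos θ) := fun g =>
    g.continuous.comp Real.continuous_cos
  have hΦ : ∀ k, MemLp (fun θ => ρ θ * (p k).eval (Real.cos θ)) 2 ν := fun k => by
    refine (memLp_two_iff_integrable_sq (hρm.mul (hc _).measurable).aestronglyMeasurable).2 ?_
    exact (imul hρ2 (p k ^ 2)).congr (ae_of_all _ fun θ => by simp [mul_pow])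
  have hE : ∀ i, MemLp (fun θ => (l i).eval (Real.cos θ)) 2 ν := fun i => by
    refine (memLp_two_iff_integrable_sq (hc _).aestronglyMeasurable).2 ?_
    exact (imul (integrable_const (μ := ν) (1 : ℝ)) (l i ^ 2)).congr
      (ae_of_all _ fun θ => by simp)
  have hll : ∀ i < N, ∀ j < N, ∫ θ, (l i).eval (Real.cos θ) * (l j).eval (Real.cos θ) ∂ν =
      if i = j then 1 else 0 := fun i hi j hj => by
    have h2 := hell.orth N i j hi hj
    rw [intervalIntegral.integral_of_le Real.pi_pos.le, ← integral_Icc_eq_integral_Ioc] at h2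
    have h3 : ∀ θ, (l i).eval (Real.cos θ) * (l j).eval (Real.cos θ) =
        N / π * ((ell N i).eval (Real.cos θ) * (ell N j).eval (Real.cos θ)) := fun θ => by
      simp only [hl, eval_mul, eval_C, ← ha2]; ring
    simp only [h3]
    rw [integral_const_mul, h2]
    split_ifs
    · field_simp
    · simp
  obtain ⟨D, T, hT⟩ := emb ((fun k => (hΦ k).toLp _) '' Set.Iio (n + 1) ∪
    (fun i => (hE i).toLp _) '' Set.Iio N) (((Set.finite_Iio _).image _).union
      ((Set.finite_Iio _).image _))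
  set φ : ℕ → ES D := fun k => T ((hΦ k).toLp _) with hφ
  set e : ℕ → ES D := fun i => T ((hE i).toLp _) with he
  have o1 : ONf φ (n + 1) := fun j hj k hk => by
    rw [hφ, hT _ (Or.inl ⟨j, hj, rfl⟩) _ (Or.inl ⟨k, hk, rfl⟩), ip, ← hp.on, h1]
    exact integral_congr_ae (ae_of_all _ fun θ => by ring)
  have o2 : ONf e N := fun i hi j hj => by
    rw [he, hT _ (Or.inr ⟨i, hi, rfl⟩) _ (Or.inr ⟨j, hj, rfl⟩), ip, hll i hi j hj]
  have o3 : ∀ k < n + 1, ∀ i < N, ⟪φ k, e i⟫ =
      ∫ θ, ρ θ * (p k * l i).eval (Real.cos θ) ∂ν := fun k hk i hi => by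
    rw [hφ, he, hT _ (Or.inl ⟨k, hk, rfl⟩) _ (Or.inr ⟨i, hi, rfl⟩), ip]
    simp only [eval_mul, mul_assoc]
  clear_value φ e
  have hex : ∀ i, ∃ c : ℕ → ℝ, i < N → q * l i = ∑ k ∈ Finset.range (n + 1), C (c k) * p k := by
    intro i
    by_cases hi : i < N
    · obtain ⟨c, hc⟩ := hp.exists_comb n (q * l i) (natDegree_mul_le.trans (by
        have := hell.deg N i hi
        have := natDegree_C_mul_le a (ell N i)
        simp only [hl]
        omega))
      exact ⟨c, fun _ => hc⟩
    · exact ⟨0, fun h => (hi h).elim⟩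
  choose c hcc using hex
  have hev : ∀ i < N, ∀ x, ∑ k ∈ Finset.range (n + 1), c i k * (p k).eval x =
      q.eval x * (l i).eval x := fun i hi x => by
    rw [← eval_mul, hcc i hi, eval_finsetSum]
    simp only [eval_mul, eval_C]
  refine ⟨D, φ, e, fun y => ∑ k ∈ Finset.range (n + 1),
    C ((φ k - ∑ i ∈ Finset.range N, c i k • e i) y) * p k, o1, o2,
    fun y => natDegree_comb hp.deg n _, fun t y => ?_, ?_⟩
  · simp only [eval_finsetSum, eval_mul, eval_C, Kt, Vt, PiLp.sub_apply, PiLp.smul_apply,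
      WithLp.ofLp_sum, Finset.sum_apply, smul_eq_mul, sub_mul, Finset.sum_sub_distrib,
      Finset.sum_mul, Finset.mul_sum]
    rw [Finset.sum_comm]
    refine congrArg₂ _ (Finset.sum_congr rfl fun k _ => mul_comm _ _)
      (Finset.sum_congr rfl fun i hi => ?_)
    have h2 := hev i (Finset.mem_range.1 hi) (Real.cos (π * t / N))
    simp only [hl, eval_mul, eval_C] at h2
    simp only [mul_right_comm _ (e i y)]
    rw [← Finset.sum_mul, h2]
    ring
  · simp only [sq, hp.int_comb]
    rw [Finset.sum_comm]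
    have hS : ∀ i ∈ Finset.range N, i < N := fun i hi => Finset.mem_range.1 hi
    have k1 : ∀ k ∈ Finset.range (n + 1), ∑ y, (φ k - ∑ i ∈ Finset.range N, c i k • e i) y *
        (φ k - ∑ i ∈ Finset.range N, c i k • e i) y = 1 - 2 * ∑ i ∈ Finset.range N,
          c i k * ⟪φ k, e i⟫ + ∑ i ∈ Finset.range N, c i k * c i k := fun k hk => by
      have h2 := EuclideanSpace.real_norm_sq_eq (φ k - ∑ i ∈ Finset.range N, c i k • e i)
      rw [norm_sub_sq_real, o2.norm_sum hS, ← real_inner_self_eq_norm_sq,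
        o1 k (Finset.mem_range.1 hk) k (Finset.mem_range.1 hk), if_pos rfl, inner_sum] at h2
      simpa only [sq, real_inner_smul_right] using h2.symm
    have k2 : ∀ i ∈ Finset.range N, ∑ k ∈ Finset.range (n + 1), c i k * ⟪φ k, e i⟫ =
        ∫ θ, ρ θ * (q * l i * l i).eval (Real.cos θ) ∂ν := fun i hi => by
      rw [Finset.sum_congr rfl fun k hk => by
        rw [o3 k (Finset.mem_range.1 hk) i (hS i hi), ← integral_const_mul],
        ← integral_finsetSum _ fun k _ => (imul hρ1 _).const_mul _]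
      refine integral_congr_ae (ae_of_all _ fun θ => ?_)
      simp only [eval_mul, ← hev i (hS i hi), Finset.sum_mul, Finset.mul_sum]
      exact Finset.sum_congr rfl fun k _ => by ring
    have k3 : ∀ i ∈ Finset.range N, ∑ k ∈ Finset.range (n + 1), c i k * c i k =
        ∫ θ, ρ θ ^ 2 * (q * l i * (q * l i)).eval (Real.cos θ) ∂ν := fun i hi => by
      rw [← hp.int_comb, ← hcc i (hS i hi), h1]
      simp only [eval_mul]
    have k4 : ∀ i ∈ Finset.range N,
        ∫ θ, (1 - ρ θ * q.eval (Real.cos θ)) ^ 2 * (l i * l i).eval (Real.cos θ) ∂ν =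
          1 - 2 * ∫ θ, ρ θ * (q * l i * l i).eval (Real.cos θ) ∂ν +
            ∫ θ, ρ θ ^ 2 * (q * l i * (q * l i)).eval (Real.cos θ) ∂ν := fun i hi => by
      have h2 := hll i (hS i hi) i (hS i hi)
      rw [if_pos rfl] at h2
      have h3 : Integrable (fun θ => (l i).eval (Real.cos θ) * (l i).eval (Real.cos θ)) ν :=
        integrable_eval_mul _ _
      have h4 := (imul hρ1 (q * l i * l i)).const_mul 2
      have h5 : Integrable (fun θ => (l i).eval (Real.cos θ) * (l i).eval (Real.cos θ) -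
        2 * (ρ θ * (q * l i * l i).eval (Real.cos θ))) ν := h3.sub h4
      conv_rhs => rw [← h2, ← integral_const_mul, ← integral_sub h3 h4,
        ← integral_add h5 (imul hρ2 _)]
      refine integral_congr_ae (ae_of_all _ fun θ => ?_)
      simp only [eval_mul]
      ring
    have k5 : Integrable (fun θ => (1 - ρ θ * q.eval (Real.cos θ)) ^ 2) ν :=
      (((integrable_const (μ := ν) (1 : ℝ)).sub ((imul hρ1 q).const_mul 2)).add
        (imul hρ2 (q ^ 2))).congr (ae_of_all _ fun θ => by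
          simp only [Pi.add_apply, Pi.sub_apply, eval_pow]; ring)
    have k6 : ∑ i ∈ Finset.range N,
        ∫ θ, (1 - ρ θ * q.eval (Real.cos θ)) ^ 2 * (l i * l i).eval (Real.cos θ) ∂ν ≤
          20 * (N : ℝ) * ∫ θ, (1 - ρ θ * q.eval (Real.cos θ)) ^ 2 ∂ν := by
      rw [← integral_finsetSum _ fun i _ => imul k5 _, ← integral_const_mul]
      refine integral_mono_ae (integrable_finsetSum _ fun i _ => imul k5 _) (k5.const_mul _)
        (ae_restrict_of_forall_mem measurableSet_Icc fun θ hθ => ?_)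
      simp only
      rw [← Finset.mul_sum, mul_comm]
      refine mul_le_mul_of_nonneg_right ?_ (sq_nonneg _)
      have h2 : ∀ i, (l i * l i).eval (Real.cos θ) = N / π * (ell N i).eval (Real.cos θ) ^ 2 :=
        fun i => by simp only [hl, eval_mul, eval_C, ← ha2]; ring
      simp only [h2]
      rw [← Finset.mul_sum]
      refine (mul_le_mul_of_nonneg_left (hell.sum N θ hθ.1 hθ.2) (by positivity)).trans ?_
      rw [div_mul_eq_mul_div, div_le_iff₀ Real.pi_pos]
      nlinarith [Real.pi_gt_three]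
    rw [Finset.sum_congr rfl k4] at k6
    rw [Finset.sum_congr rfl k1]
    simp only [Finset.sum_add_distrib, Finset.sum_sub_distrib, ← Finset.mul_sum, Finset.sum_const,
      Finset.card_range, nsmul_eq_mul, mul_one] at k6 ⊢
    rw [Finset.sum_comm, Finset.sum_congr rfl k2, Finset.sum_comm (f := fun k i => c i k * c i k),
      Finset.sum_congr rfl k3]
    simp only [← sq] at k6 ⊢
    push_cast
    linarith

end Pool.Agent.MP_f6b137_pr.H50
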